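import Pool.Agent.Q145.LZ.Stm
import Pool.Agent.Q285.LY.JG
import Pool.Agent.Q186.LY.CBJT

/-! Job JGZ of the project LZ (helper58): the proof of helper285 (Pool.Agent.Q285.LY.JG) with the weaker
condition on the leading coefficient. -/

set_option autoImplicit false

namespace Pool.Agent.Q58.LZ

open Finset Filter
open Pool.Agent.Q145.SZ Pool.Agent.Q145.LQ Pool.Agent.Q145.LE Pool.Agent.Q261.SZ Pool.Agent.Q53.LQ.JPOLY Pool.Agent.Q53.LQ.HSQ
open Pool.Agent.Q145.LY Pool.Agent.Q285.LY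

/-- the sum of `FF` -/
theorem sumFFz (hCB : S_CB) (z y Y Z M d : ℕ) (lam : ℝ) (hz : 2 ≤ z) (hzy : z ≤ y) (hyY : y ^ 3 ≤ Y)
    (R : Polynomial ℤ) (hd : R.natDegree ≤ d)
    (hl : ∀ p : ℕ, p.Prime → z < p → (p : ℤ) ∣ R.leadingCoeff → ∀ m : ℕ, ¬ (p : ℤ) ∣ R.eval (m : ℤ))
    (c : ZMod (PW z))
    (hlam : ∀ h : ℕ, h ≠ 0 → h ≤ Z → JP z h ^ M ≤ lam) (hlam0 : 0 ≤ lam) :
    ∑ m ∈ (Ioc Y (2 * Y)).filter (fun m : ℕ => (m : ZMod (PW z)) = c ∧ R.eval (m : ℤ) ≠ 0 ∧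
      (R.eval (m : ℤ)).natAbs ≤ Z), FF z y M (R.eval (m : ℤ)).natAbs ≤
      ((Y : ℝ) / PW z * ∏ p ∈ (Ioc z y).filter Nat.Prime, (1 + d * gj M p / p) +
        (y : ℝ) ^ 2 * ∏ p ∈ (Ioc z y).filter Nat.Prime, (1 + d * gj M p / √p)) +
        lam * (2 * Y / y * ∏ p ∈ (Ioc z y).filter Nat.Prime, (1 + d * gj M p / √p)) := by
  classical
  have hW0 : 0 < PW z := Nat.pos_of_ne_zero (NeZero.ne (PW z))
  obtain ⟨P, hP⟩ : ∃ P, P = (Ioc z y).filter Nat.Prime := ⟨_, rfl⟩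
  have hPm : ∀ p ∈ P, p.Prime ∧ z < p ∧ p ≤ y := by
    intro p hp
    rw [hP, mem_filter, mem_Ioc] at hp
    exact ⟨hp.2, hp.1.1, hp.1.2⟩
  obtain ⟨S, hS⟩ : ∃ S, S = (Ioc Y (2 * Y)).filter (fun m : ℕ => (m : ZMod (PW z)) = c ∧ R.eval (m : ℤ) ≠ 0 ∧
      (R.eval (m : ℤ)).natAbs ≤ Z) := ⟨_, rfl⟩
  have hSm : ∀ m ∈ S, m ∈ Ioc Y (2 * Y) ∧ (m : ZMod (PW z)) = c ∧ (R.eval (m : ℤ)).natAbs ≠ 0 ∧
      (R.eval (m : ℤ)).natAbs ≤ Z := by
    intro m hm
    rw [hS, mem_filter] at hm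
    exact ⟨hm.1, hm.2.1, Int.natAbs_ne_zero.2 hm.2.2.1, hm.2.2.2⟩
  obtain ⟨N, hN⟩ : ∃ N : Finset ℕ → ℝ, ∀ E, N E =
      ((S.filter fun m : ℕ => (∏ p ∈ E, p) ∣ (R.eval (m : ℤ)).natAbs).card : ℝ) := ⟨_, fun _ => rfl⟩
  have hNb : ∀ E ∈ P.powerset, N E ≤ d ^ E.card * ((Y : ℝ) / (PW z * ∏ p ∈ E, p : ℕ) + 1) := by
    intro E hE
    have hEp : ∀ p ∈ E, p.Prime ∧ z < p := fun p hp => ⟨(hPm p (mem_powerset.1 hE hp)).1, (hPm p (mem_powerset.1 hE hp)).2.1⟩
    by_cases hdv : ∃ p ∈ E, (p : ℤ) ∣ R.leadingCoeff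
    · obtain ⟨p, hpE, hpl⟩ := hdv
      have h0 : N E = 0 := by
        rw [hN, Nat.cast_eq_zero, card_eq_zero, filter_eq_empty_iff]
        intro m _ hm
        refine hl p (hEp p hpE).1 (hEp p hpE).2 hpl m ?_
        rw [Int.natCast_dvd]
        exact (dvd_prod_of_mem _ hpE).trans hm
      rw [h0]
      positivity
    have hEl : ∀ p ∈ E, p.Prime ∧ ¬ (p : ℤ) ∣ R.leadingCoeff ∧ (PW z).Coprime p := by
      intro p hp
      exact ⟨(hEp p hp).1, fun h => hdv ⟨p, hp, h⟩, coprime_PW (hEp p hp).1 (hEp p hp).2⟩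
    rw [hN]
    refine cnt_roots Y d R hd E hEl c _ ?_ ?_ ?_
    · intro m hm
      exact (hSm m (mem_filter.1 hm).1).1
    · intro m hm
      exact (hSm m (mem_filter.1 hm).1).2.1
    · intro m hm p hp
      rw [Int.natCast_dvd]
      exact (dvd_prod_of_mem _ hp).trans (mem_filter.1 hm).2
  have hg0 : ∀ p ∈ P, 0 ≤ gj M p := fun p hp => gj_nonneg (hPm p hp).1.two_le
  -- sums over the divisors
  have hswap : ∀ Q : Finset ℕ → Prop, [DecidablePred Q] →
      ∑ m ∈ S, ∑ E ∈ P.powerset.filter Q, (if (∏ p ∈ E, p) ∣ (R.eval (m : ℤ)).natAbs then ∏ p ∈ E, gj M p else 0) =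
        ∑ E ∈ P.powerset.filter Q, N E * ∏ p ∈ E, gj M p := by
    intro Q _
    rw [sum_comm]
    refine sum_congr rfl fun E _ => ?_
    rw [← sum_filter, sum_const, nsmul_eq_mul, hN]
  have hpt : ∀ m ∈ S, FF z y M (R.eval (m : ℤ)).natAbs ≤
      ∑ E ∈ P.powerset.filter (fun E => ∏ p ∈ E, p ≤ y ^ 4),
        (if (∏ p ∈ E, p) ∣ (R.eval (m : ℤ)).natAbs then ∏ p ∈ E, gj M p else 0) +
      lam * ∑ E ∈ P.powerset.filter (fun E => y ^ 2 < ∏ p ∈ E, p ∧ ∏ p ∈ E, p ≤ y ^ 3),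
        (if (∏ p ∈ E, p) ∣ (R.eval (m : ℤ)).natAbs then ∏ p ∈ E, gj M p else 0) := by
    intro m hm
    obtain ⟨-, -, hm3, hm4⟩ := hSm m hm
    generalize (R.eval (m : ℤ)).natAbs = h at hm3 hm4 ⊢
    have hFe : FF z y M h = ∑ E ∈ P.powerset, (if (∏ p ∈ E, p) ∣ h then ∏ p ∈ E, gj M p else 0) := by
      unfold FF
      rw [← hP]
      exact expand P (fun p hp => (hPm p hp).1) _ h
    have hFl : FF z y M h ≤ lam := by
      have h1 := hlam h hm3 hm4
      rw [JP_split z y M h hzy hm3] at h1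
      have h2 : 1 ≤ JP y h ^ M := one_le_pow₀ (JP_one_le y h)
      have h3 := FF_nonneg z y M h
      nlinarith
    rw [hFe, ← sum_filter_add_sum_filter_not P.powerset (fun E => ∏ p ∈ E, p ≤ y ^ 4)]
    refine add_le_add le_rfl ?_
    -- the part with large divisors
    obtain ⟨D, hD⟩ : ∃ D, D = P.filter (fun p => p ∣ h) := ⟨_, rfl⟩
    have hDm : ∀ p ∈ D, 1 ≤ p ∧ p ≤ y := by
      intro p hp
      rw [hD] at hp
      have := hPm p (mem_filter.1 hp).1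
      exact ⟨this.1.one_lt.le, this.2.2⟩
    have hsub : ∀ E : Finset ℕ, E ⊆ D ↔ E ⊆ P ∧ (∏ p ∈ E, p) ∣ h := by
      intro E
      constructor
      · intro hE
        have h1 : E ⊆ P := fun p hp => (mem_filter.1 (hD ▸ hE hp)).1
        refine ⟨h1, (dvd_prod_iff E (fun p hp => (hPm p (h1 hp)).1) h).2 fun p hp => ?_⟩
        have h3 := hE hp
        rw [hD, mem_filter] at h3
        exact h3.2
      · rintro ⟨h1, h2⟩ p hp
        rw [hD, mem_filter]
        exact ⟨h1 hp, (dvd_prod_iff E (fun p hp => (hPm p (h1 hp)).1) h).1 h2 p hp⟩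
    have hres : ∀ Q : Finset ℕ → Prop, [DecidablePred Q] → ∑ E ∈ P.powerset.filter Q,
        (if (∏ p ∈ E, p) ∣ h then ∏ p ∈ E, gj M p else 0) = ∑ E ∈ D.powerset.filter Q, ∏ p ∈ E, gj M p := by
      intro Q _
      rw [← sum_filter]
      refine sum_congr ?_ fun _ _ => rfl
      ext E
      simp only [mem_filter, mem_powerset, hsub]
      tauto
    rw [hres, hres]
    have hcb := hCB y D (gj M) (by omega) hDm (fun p hp => hg0 p (mem_filter.1 (hD ▸ hp)).1)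
    have hprod : ∏ p ∈ D, (1 + gj M p) ≤ lam := by
      refine le_trans (le_of_eq ?_) hFl
      unfold FF
      rw [← hP, hD, prod_filter]
      refine prod_congr rfl fun p _ => ?_
      split_ifs
      · rfl
      · rw [add_zero]
    have hfe : D.powerset.filter (fun E => ¬ ∏ p ∈ E, p ≤ y ^ 4) = D.powerset.filter (fun E => y ^ 4 < ∏ p ∈ E, p) :=
      filter_congr fun E _ => not_le
    rw [hfe]
    refine hcb.trans ?_
    rw [mul_comm]
    refine mul_le_mul_of_nonneg_right hprod (sum_nonneg fun E hE => prod_nonneg fun p hp => ?_)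
    exact hg0 p (mem_filter.1 (hD ▸ (mem_powerset.1 (mem_filter.1 hE).1 hp))).1
  rw [← hS]
  refine (sum_le_sum hpt).trans ?_
  rw [sum_add_distrib, ← mul_sum, hswap, hswap, ← hP]
  refine add_le_add ?_ (mul_le_mul_of_nonneg_left ?_ hlam0)
  · have := part1 z y Y M d hW0 N (by rw [← hP]; exact hNb)
    rw [← hP] at this
    exact this
  · have := part2 z y Y M d hW0 (by omega) hyY N (by rw [← hP]; exact hNb)
    rw [← hP] at this
    exact this

theorem jgz0 (h1 : S_CB) (h2 : S_JT) : Pool.Agent.Q145.LZ.S_JGZ := by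
  intro d
  obtain ⟨C₁, hC₁, hSQ⟩ := Pool.Agent.Q145.LS.t_SQ2
  obtain ⟨C₀, hC₀, hJT⟩ := h2
  obtain ⟨z₀, hz₀⟩ := (ev_z (d * C₁)).exists_forall_of_atTop
  obtain ⟨C, hC⟩ := exists_nat_ge (4 * (d * C₁) + 5 + C₀)
  have hdC : 0 ≤ (d : ℝ) * C₁ := by positivity
  refine ⟨C, z₀, by
    have : (1 : ℝ) ≤ C := by linarith
    exact_mod_cast this, ?_⟩
  intro z Y Z M R hz hM hZ hY hY2 hML hR hRd hRl c
  obtain ⟨hWe, hz60, hlog1, hlogA, hkey, hzW⟩ := hz₀ z hz
  have hz60r : (60 : ℝ) ≤ z := by exact_mod_cast hz60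
  have hz0 : (0 : ℝ) < z := by linarith
  have hW1 : (1 : ℝ) ≤ PW z := by exact_mod_cast Nat.pos_of_ne_zero (NeZero.ne (PW z))
  have hW0 : (0 : ℝ) < PW z := by linarith
  have hW4 : (4 : ℝ) ≤ PW z := by
    have := Real.add_one_le_exp ((z : ℝ) / 2)
    linarith
  have hlog0 : 0 < Real.log z := by linarith
  have hY0 : (0 : ℝ) < Y := lt_of_lt_of_le (by positivity) hY
  have hY1 : (1 : ℝ) ≤ Y := (one_le_pow₀ hW1).trans hY
  -- the number lam
  obtain ⟨lam, hlam⟩ : ∃ lam : ℝ, lam = (Y : ℝ) ^ ((1 : ℝ) / 64) := ⟨_, rfl⟩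
  have hlam1 : 1 ≤ lam := by
    rw [hlam]
    exact Real.one_le_rpow hY1 (by norm_num)
  have hlam0 : 0 < lam := by linarith
  have hlam64 : lam ^ 64 = Y := by
    rw [hlam, ← Real.rpow_natCast, ← Real.rpow_mul hY0.le]
    norm_num
  have hWlam : (PW z : ℝ) ≤ lam ^ 2 := by
    have : (PW z : ℝ) ^ 32 ≤ (lam ^ 2) ^ 32 := by
      rw [← pow_mul]
      norm_num
      rw [hlam64]
      exact hY
    exact (pow_le_pow_iff_left₀ hW0.le (by positivity) (by norm_num)).1 this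
  have hZ16 : (16 : ℝ) ≤ Z := by exact_mod_cast hZ
  have hlogZ : Real.exp 1 ≤ Real.log Z := by
    have h3 : Real.log 16 ≤ Real.log Z := Real.log_le_log (by norm_num) hZ16
    have h4 : Real.log 16 = 4 * Real.log 2 := by
      rw [show (16 : ℝ) = 2 ^ 4 by norm_num, Real.log_pow]
      norm_num
    have h5 := Real.log_two_gt_d9
    have h6 := Real.exp_one_lt_d9
    linarith
  have hlogZ1 : 1 ≤ Real.log Z := by
    have := Real.exp_one_gt_d9
    linarith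
  have hloglog : 1 ≤ Real.log (Real.log Z) := by
    rw [Real.le_log_iff_exp_le (by linarith)]
    exact hlogZ
  have hZlam : Real.log Z ≤ lam := by
    have : (Real.log Z) ^ 64 ≤ lam ^ 64 := by
      rw [hlam64]
      exact hY2
    exact (pow_le_pow_iff_left₀ (by linarith) hlam0.le (by norm_num)).1 this
  -- the number y
  obtain ⟨y, hy⟩ : ∃ y : ℕ, y = ⌊lam ^ 8⌋₊ := ⟨_, rfl⟩
  have hyle : (y : ℝ) ≤ lam ^ 8 := by
    rw [hy]
    exact Nat.floor_le (by positivity)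
  have hylt : lam ^ 8 < y + 1 := by
    rw [hy]
    exact Nat.lt_floor_add_one _
  have hl8 : (PW z : ℝ) ^ 4 ≤ lam ^ 8 := by
    calc (PW z : ℝ) ^ 4 ≤ (lam ^ 2) ^ 4 := pow_le_pow_left₀ hW0.le hWlam 4
      _ = lam ^ 8 := by ring
  have hWz : (z : ℝ) ≤ PW z := by
    have h5 := Real.quadratic_le_exp_of_nonneg (show 0 ≤ (z : ℝ) / 2 by positivity)
    nlinarith
  have hzy : z ≤ y := by
    have h3 : (z : ℝ) + 1 ≤ lam ^ 8 := by
      have h4 : (PW z : ℝ) * 4 ≤ (PW z : ℝ) ^ 4 := by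
        have h5 : (4 : ℝ) ≤ (PW z : ℝ) ^ 3 := by
          have := pow_le_pow_left₀ (by norm_num : (0 : ℝ) ≤ 4) hW4 3
          linarith
        calc (PW z : ℝ) * 4 ≤ (PW z : ℝ) * (PW z : ℝ) ^ 3 := by gcongr
          _ = _ := by ring
      linarith
    have h5 : (z : ℝ) < y := by linarith
    exact_mod_cast h5.le
  have hy2 : 2 ≤ y := by omega
  have hyr : (0 : ℝ) < y := by exact_mod_cast (show 0 < y by omega)
  have h2y : lam ^ 8 ≤ 2 * y := by
    have : (1 : ℝ) ≤ y := by exact_mod_cast (show 1 ≤ y by omega)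
    linarith
  have hy3 : y ^ 3 ≤ Y := by
    have h3 : ((y : ℝ)) ^ 3 ≤ Y := by
      calc (y : ℝ) ^ 3 ≤ (lam ^ 8) ^ 3 := pow_le_pow_left₀ hyr.le hyle 3
        _ = lam ^ 24 := by ring
        _ ≤ lam ^ 64 := pow_le_pow_right₀ hlam1 (by norm_num)
        _ = Y := hlam64
    exact_mod_cast h3
  -- the trivial bound
  have hC0C : C₀ ≤ C := by linarith
  have htriv : ∀ h : ℕ, h ≠ 0 → h ≤ Z → JP z h ^ M ≤ lam := by
    intro h hh0 hhZ
    have h3 := hJT z h Z hh0 hhZ hZ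
    have h4 : JP z h ≤ C * Real.log (Real.log Z) := h3.trans (by gcongr)
    have hpos : 0 < (C : ℝ) * Real.log (Real.log Z) := by
      have : (0 : ℝ) < C := by linarith
      positivity
    have h5 : JP z h ^ M ≤ (C * Real.log (Real.log Z)) ^ M :=
      pow_le_pow_left₀ (zero_le_one.trans (JP_one_le z h)) h4 M
    refine h5.trans ?_
    have h6 : (C * Real.log (Real.log Z)) ^ M = Real.exp (M * Real.log (C * Real.log (Real.log Z))) := by
      rw [Real.exp_nat_mul, Real.exp_log hpos]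
    rw [h6, hlam, Real.rpow_def_of_pos hY0, Real.exp_le_exp]
    linarith
  -- the tail
  obtain ⟨u, hu⟩ : ∃ u : ℝ, u = 1 / Real.log z := ⟨_, rfl⟩
  have hu0 : 0 < u := by rw [hu]; positivity
  have hu1 : u ≤ 1 := by
    rw [hu, div_le_one hlog0]
    exact hlog1
  have htail : ∀ h : ℕ, h ≠ 0 → h ≤ Z → JP y h ^ M ≤ 1 + u := by
    intro h hh0 hhZ
    refine (JP_tail y M h Z hy2 (hM.trans hzy) hh0 hhZ).trans ?_
    have h3 : 8 * M * Real.log Z / y ≤ u / 2 := by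
      rw [div_le_iff₀ hyr, hu]
      have h4 : 8 * (M : ℝ) ≤ z := by exact_mod_cast hM
      have h5 : 8 * (M : ℝ) * Real.log Z ≤ z * lam := by
        have : 0 ≤ Real.log Z := by linarith
        gcongr
      refine h5.trans ?_
      have h6 : 4 * (z * Real.log z) * lam ≤ 2 * y := by
        calc 4 * (z * Real.log z) * lam = (4 * z * Real.log z) * lam := by ring
          _ ≤ (PW z : ℝ) ^ 2 * lam := by gcongr
          _ ≤ (lam ^ 2) ^ 2 * lam := by gcongr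
          _ = lam ^ 5 := by ring
          _ ≤ lam ^ 8 := pow_le_pow_right₀ hlam1 (by norm_num)
          _ ≤ 2 * y := h2y
      have h7 : 1 / Real.log z / 2 * y = y / (2 * Real.log z) := by
        field_simp
      rw [h7, le_div_iff₀ (by positivity)]
      linarith
    have h4 : 0 ≤ 8 * M * Real.log Z / y := by
      have : 0 ≤ Real.log Z := by linarith
      positivity
    have h5 := exp_quad h4 (h3.trans (by linarith))
    have h6 : (8 * M * Real.log Z / y) ^ 2 ≤ 8 * M * Real.log Z / y := by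
      have : 8 * M * Real.log Z / y ≤ 1 := h3.trans (by linarith)
      nlinarith
    linarith
  -- the two products
  have hA1 := first_le z y M d (by omega) hM (hSQ z y (by omega)).1
  have hA2 := second_leY z y M d (by omega) hM (hSQ z y (by omega)).2
  have hexp : Real.exp (d * C₁ / Real.log z) ≤ 1 + 2 * (d * C₁) * u := by
    have h3 : 0 ≤ d * C₁ / Real.log z := by positivity
    have h4 : d * C₁ / Real.log z ≤ 1 := by
      rw [div_le_one hlog0]
      exact hlogA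
    have h5 := exp_quad h3 h4
    have h6 : 2 * (d * C₁) * u = 2 * (d * C₁ / Real.log z) := by rw [hu]; ring
    rw [h6]
    nlinarith
  obtain ⟨T, hT⟩ : ∃ T : ℝ, T = (Y : ℝ) / PW z := ⟨_, rfl⟩
  have hT0 : 0 < T := by rw [hT]; positivity
  obtain ⟨S2, hS2⟩ : ∃ S2 : ℝ, S2 = ∏ p ∈ (Ioc z y).filter Nat.Prime, (1 + d * gj M p / √p) := ⟨_, rfl⟩
  have hS20 : 0 ≤ S2 := by
    rw [hS2]
    refine prod_nonneg fun p hp => ?_
    have := gj_nonneg (M := M) (mem_filter.1 hp).2.two_le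
    positivity
  rw [← hS2] at hA2
  have hS2W : S2 * Real.log z ≤ PW z := (mul_le_mul_of_nonneg_right hA2 hlog0.le).trans hkey
  have hb2 : (y : ℝ) ^ 2 * S2 ≤ T * u := by
    rw [hT, hu, mul_one_div, div_div, le_div_iff₀ (by positivity)]
    calc (y : ℝ) ^ 2 * S2 * (PW z * Real.log z) = (y : ℝ) ^ 2 * PW z * (S2 * Real.log z) := by ring
      _ ≤ (lam ^ 8) ^ 2 * lam ^ 2 * lam ^ 2 := by
          have : S2 * Real.log z ≤ lam ^ 2 := hS2W.trans hWlam
          gcongr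
      _ = lam ^ 20 := by ring
      _ ≤ lam ^ 64 := pow_le_pow_right₀ hlam1 (by norm_num)
      _ = Y := hlam64
  have hb3 : lam * (2 * Y / y * S2) ≤ T * u := by
    rw [hT, hu, mul_one_div, div_div]
    have e : lam * (2 * Y / y * S2) = (lam * 2 * Y * S2) / y := by ring
    rw [e, div_le_div_iff₀ hyr (by positivity)]
    have h3 : 2 * (lam * (PW z * (S2 * Real.log z))) ≤ y := by
      have h4 : 4 * (lam * (PW z * (S2 * Real.log z))) ≤ 2 * y := by
        calc 4 * (lam * (PW z * (S2 * Real.log z))) ≤ PW z * (lam * (PW z * PW z)) := by gcongr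
          _ ≤ lam ^ 2 * (lam * (lam ^ 2 * lam ^ 2)) := by gcongr
          _ = lam ^ 7 := by ring
          _ ≤ lam ^ 8 := pow_le_pow_right₀ hlam1 (by norm_num)
          _ ≤ 2 * y := h2y
      linarith
    calc lam * 2 * Y * S2 * (PW z * Real.log z) = Y * (2 * (lam * (PW z * (S2 * Real.log z)))) := by ring
      _ ≤ Y * y := by gcongr
  have hmain := sumFFz h1 z y Y Z M d lam (by omega) hzy hy3 R hRd hRl c htriv hlam0.le
  rw [← hT, ← hS2] at hmain
  have hsum : ∑ m ∈ (Ioc Y (2 * Y)).filter (fun m : ℕ => (m : ZMod (PW z)) = c ∧ R.eval (m : ℤ) ≠ 0 ∧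
      (R.eval (m : ℤ)).natAbs ≤ Z), JP z (R.eval (m : ℤ)).natAbs ^ M ≤
      (1 + u) * ∑ m ∈ (Ioc Y (2 * Y)).filter (fun m : ℕ => (m : ZMod (PW z)) = c ∧ R.eval (m : ℤ) ≠ 0 ∧
        (R.eval (m : ℤ)).natAbs ≤ Z), FF z y M (R.eval (m : ℤ)).natAbs := by
    rw [mul_sum]
    refine sum_le_sum fun m hm => ?_
    have hm2 := (mem_filter.1 hm).2
    rw [JP_split z y M _ hzy (Int.natAbs_ne_zero.2 hm2.2.1), mul_comm]
    exact mul_le_mul_of_nonneg_right (htail _ (Int.natAbs_ne_zero.2 hm2.2.1) hm2.2.2) (FF_nonneg _ _ _ _)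
  refine hsum.trans ?_
  have h3 : T * ∏ p ∈ (Ioc z y).filter Nat.Prime, (1 + d * gj M p / p) ≤ T * (1 + 2 * (d * C₁) * u) :=
    mul_le_mul_of_nonneg_left (hA1.trans hexp) hT0.le
  have h4 : ∑ m ∈ (Ioc Y (2 * Y)).filter (fun m : ℕ => (m : ZMod (PW z)) = c ∧ R.eval (m : ℤ) ≠ 0 ∧
        (R.eval (m : ℤ)).natAbs ≤ Z), FF z y M (R.eval (m : ℤ)).natAbs ≤ T * (1 + (2 * (d * C₁) + 2) * u) := by
    have e : T * (1 + (2 * (d * C₁) + 2) * u) = T * (1 + 2 * (d * C₁) * u) + T * u + T * u := by ring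
    rw [e]
    linarith
  refine (mul_le_mul_of_nonneg_left h4 (by linarith)).trans ?_
  rw [← hT]
  have e : (1 + u) * (T * (1 + (2 * (d * C₁) + 2) * u)) = T * ((1 + u) * (1 + (2 * (d * C₁) + 2) * u)) := by ring
  rw [e]
  refine mul_le_mul_of_nonneg_left ?_ hT0.le
  have h5 : (C : ℝ) / Real.log z = C * u := by rw [hu]; ring
  rw [h5]
  have h6 : (4 * (d * C₁) + 5) * u ≤ C * u := mul_le_mul_of_nonneg_right (by linarith) hu0.le
  have h7 : (2 * (d * C₁) + 2) * (u * u) ≤ (2 * (d * C₁) + 2) * (u * 1) := by gcongr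
  have e2 : (1 + u) * (1 + (2 * (d * C₁) + 2) * u) = 1 + (2 * (d * C₁) + 3) * u + (2 * (d * C₁) + 2) * (u * u) := by ring
  rw [e2]
  linarith

theorem jgz : Pool.Agent.Q145.LZ.S_JGZ := jgz0 Pool.Agent.Q145.LY.cb Pool.Agent.Q145.LY.jt

end Pool.Agent.Q58.LZ
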